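import Mathlib

/-!
Full support iterations of length `ω` in the language of complete Boolean algebras.
-/

set_option autoImplicit false

namespace Pool.Agent.MP_9590fd_lc.H86B

variable {B : Type} [CompleteBooleanAlgebra B]

/-- `A` is a complete subalgebra of `B`. -/
def IsSub (A : Set B) : Prop := (∀ S ⊆ A, sSup S ∈ A) ∧ ∀ a ∈ A, aᶜ ∈ A

/-- The projection of `b` to the complete subalgebra `A`. -/
def proj (A : Set B) (b : B) : B := sInf {a | a ∈ A ∧ b ≤ a}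

/-- `f` is an `A`-name of a function `ℕ → ℕ`: `f i j` is the Boolean value of `f(i) = j`. -/
def IsName (A : Set B) (f : ℕ → ℕ → B) : Prop :=
  (∀ i j, f i j ∈ A) ∧ (∀ i, ⨆ j, f i j = ⊤) ∧ ∀ i j k, j ≠ k → f i j ⊓ f i k = ⊥

/-- The Boolean value of `f(i) < d(i) for all but finitely many i` is `⊤`. -/
def Dom (f d : ℕ → ℕ → B) : Prop :=
  ⨆ L, ⨅ i, ⨅ _ : L ≤ i, ⨆ j, ⨆ k, ⨆ _ : j < k, f i j ⊓ d i k = ⊤

/-- A condition of the inverse (full support) limit of `A 0 ⊆ A 1 ⊆ ...`. -/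
def Thread (A : ℕ → Set B) (p : ℕ → B) : Prop :=
  ∀ n, p n ∈ A n ∧ p n ≠ ⊥ ∧ proj (A n) (p (n + 1)) = p n

end Pool.Agent.MP_9590fd_lc.H86B
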