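import Pool.Agent.MP_9590fd_lc.H86.BDefs

/-!
A full support iteration of length `ω` that adds a dominating real at every step: every
`ω₁`-sequence of conditions has a refinement no infinite part of which has a lower bound.
-/

set_option autoImplicit false

namespace Pool.Agent.MP_9590fd_lc.H86B

open Set

variable {B : Type} [CompleteBooleanAlgebra B] {A A' : Set B}

theorem IsSub.iSup (h : IsSub A) {ι : Sort _} {a : ι → B} (ha : ∀ i, a i ∈ A) : ⨆ i, a i ∈ A :=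
  h.1 _ (range_subset_iff.2 ha)

theorem IsSub.iInf (h : IsSub A) {ι : Sort _} {a : ι → B} (ha : ∀ i, a i ∈ A) :
    ⨅ i, a i ∈ A := by
  have := h.2 _ (h.iSup fun i => h.2 _ (ha i))
  simpa [compl_iSup] using this

theorem IsSub.bot (h : IsSub A) : ⊥ ∈ A := by simpa using h.1 ∅ (empty_subset _)

theorem IsSub.top (h : IsSub A) : ⊤ ∈ A := by simpa using h.2 _ h.bot

theorem IsSub.inf (h : IsSub A) {a b : B} (ha : a ∈ A) (hb : b ∈ A) : a ⊓ b ∈ A := by
  have := h.iInf (a := fun i : Bool => cond i a b) fun i => by cases i <;> assumption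
  simpa only [iInf_bool_eq, cond_true, cond_false] using this

theorem proj_mem (h : IsSub A) (b : B) : proj A b ∈ A := by
  rw [proj, sInf_eq_iInf']
  exact h.iInf fun a => a.2.1

theorem le_proj (b : B) : b ≤ proj A b := le_sInf fun _ h => h.2

theorem proj_le {a b : B} (ha : a ∈ A) (h : b ≤ a) : proj A b ≤ a := sInf_le ⟨ha, h⟩

theorem proj_mono (h : IsSub A) {a b : B} (hab : a ≤ b) : proj A a ≤ proj A b :=
  proj_le (proj_mem h _) (hab.trans (le_proj _))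

theorem proj_inf (h : IsSub A) {a : B} (ha : a ∈ A) (b : B) :
    proj A (a ⊓ b) = a ⊓ proj A b := by
  refine le_antisymm (proj_le (h.inf ha (proj_mem h _)) (inf_le_inf_left _ (le_proj _))) ?_
  have h1 : (a ⊓ (proj A (a ⊓ b))ᶜ)ᶜ ∈ A := h.2 _ (h.inf ha (h.2 _ (proj_mem h _)))
  have h2 : b ≤ (a ⊓ (proj A (a ⊓ b))ᶜ)ᶜ := by
    rw [le_compl_iff_disjoint_right, disjoint_iff, ← inf_assoc, ← disjoint_iff,
      disjoint_compl_right_iff, inf_comm]
    exact le_proj _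
  have h3 := proj_le h1 h2
  rw [le_compl_iff_disjoint_right, disjoint_iff, ← inf_assoc, ← disjoint_iff,
    disjoint_compl_right_iff, inf_comm] at h3
  exact h3

theorem ex_inf {ι : Sort _} {b : B} {a : ι → B} (hb : b ≠ ⊥) (h : b ≤ ⨆ i, a i) :
    ∃ i, b ⊓ a i ≠ ⊥ := by
  by_contra hn
  push Not at hn
  refine hb ?_
  rw [← inf_eq_left.2 h, inf_iSup_eq]
  simpa only [iSup_eq_bot] using hn

theorem ex_top {ι : Sort _} {b : B} {a : ι → B} (hb : b ≠ ⊥) (h : ⨆ i, a i = ⊤) :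
    ∃ i, b ⊓ a i ≠ ⊥ := ex_inf hb (h ▸ le_top)

theorem top_of {ι : Sort _} {a : ι → B} (h : ∀ b : B, b ≠ ⊥ → ∃ i, b ⊓ a i ≠ ⊥) :
    ⨆ i, a i = ⊤ := by
  by_contra hn
  obtain ⟨i, hi⟩ := h (⨆ i, a i)ᶜ (by simpa using hn)
  exact hi (disjoint_iff.1 (disjoint_compl_left.mono_right (le_iSup a i)))

theorem ne_mono {a b : B} (h : a ≠ ⊥) (hab : a ≤ b) : b ≠ ⊥ := ne_bot_of_le_ne_bot h hab

/-- Disjoint refinement inside `A`. -/
theorem disj (h : IsSub A) {ι : Type} [Countable ι] (a : ι → B) (ha : ∀ i, a i ∈ A) :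
    ∃ c : ι → B, (∀ i, c i ∈ A) ∧ (∀ i, c i ≤ a i) ∧ ⨆ i, c i = ⨆ i, a i ∧
      ∀ i j, i ≠ j → c i ⊓ c j = ⊥ := by
  obtain ⟨e, he⟩ := Countable.exists_injective_nat ι
  refine ⟨fun i => a i ⊓ (⨆ j, ⨆ _ : e j < e i, a j)ᶜ, fun i => h.inf (ha i)
    (h.2 _ (h.iSup fun j => h.iSup fun _ => ha j)), fun i => inf_le_left, ?_, ?_⟩
  · refine le_antisymm (iSup_mono fun i => inf_le_left) (iSup_le fun i => ?_)
    induction hn : e i using Nat.strong_induction_on generalizing i with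
    | _ n ih =>
      subst hn
      rw [← inf_top_eq (a i), ← sup_compl_eq_top (x := ⨆ j, ⨆ _ : e j < e i, a j), inf_sup_left]
      exact sup_le (inf_le_right.trans (iSup₂_le fun j hj => ih _ hj j rfl))
        (le_iSup (fun i => a i ⊓ (⨆ j, ⨆ _ : e j < e i, a j)ᶜ) i)
  · have key : ∀ i j, e i < e j → (a i ⊓ (⨆ k, ⨆ _ : e k < e i, a k)ᶜ) ⊓
        (a j ⊓ (⨆ k, ⨆ _ : e k < e j, a k)ᶜ) = ⊥ := fun i j hij =>
      disjoint_iff.1 (disjoint_compl_right.mono (inf_le_left.trans (le_iSup₂_of_le i hij le_rfl))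
        inf_le_right)
    intro i j hij
    rcases lt_or_gt_of_ne (he.ne hij) with h1 | h1
    · exact key i j h1
    · rw [inf_comm]; exact key j i h1

/-- `d` names a real that dominates all `A`-names. -/
def Dm (A : Set B) (d : ℕ → ℕ → B) : Prop := ∀ f, IsName A f → Dom f d

theorem dom' (h : IsSub A) {d : ℕ → ℕ → B} (hd : Dm A d) (y : ℕ → ℕ → B) (hy : ∀ i j, y i j ∈ A)
    (ht : ∀ i, ⨆ j, y i j = ⊤) : Dom y d := by
  choose c c1 c2 c3 c4 using fun i => disj h (y i) (hy i)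
  have := hd c ⟨c1, fun i => (c3 i).trans (ht i), c4⟩
  refine top_unique (this.ge.trans ?_)
  exact iSup_mono fun L => iInf_mono fun i => iInf_mono fun _ => iSup_mono fun j =>
    iSup_mono fun k => iSup_mono fun _ => inf_le_inf_right _ (c2 i j)

/-- Finitely many partially defined names of numbers have a common bound. -/
theorem bnd (c : ℕ → ℕ → B) (hc : ∀ e v w, v ≠ w → c e v ⊓ c e w = ⊥) (m : ℕ) (b : B)
    (hb : b ≠ ⊥) : ∃ j, ∃ b' ≤ b, b' ≠ ⊥ ∧ ∀ e < m, ∀ v, j < v → b' ⊓ c e v = ⊥ := by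
  induction m with
  | zero => exact ⟨0, b, le_rfl, hb, fun e he => absurd he e.not_lt_zero⟩
  | succ m ih =>
    obtain ⟨j, b', h1, h2, h3⟩ := ih
    by_cases hx : ∃ v, b' ⊓ c m v ≠ ⊥
    · obtain ⟨v, hv⟩ := hx
      refine ⟨max j v, _, inf_le_left.trans h1, hv, fun e he w hw => ?_⟩
      rcases Nat.lt_succ_iff_lt_or_eq.1 he with he | rfl
      · exact le_bot_iff.1 ((inf_le_inf_right _ inf_le_left).trans
          (h3 e he w (lt_of_le_of_lt (le_max_left _ _) hw)).le)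
      · exact le_bot_iff.1 ((inf_le_inf_right _ inf_le_right).trans
          (hc e v w (lt_of_le_of_lt (le_max_right _ _) hw).ne).le)
    · push Not at hx
      refine ⟨j, b', h1, h2, fun e he w hw => ?_⟩
      rcases Nat.lt_succ_iff_lt_or_eq.1 he with he | rfl
      · exact h3 e he w hw
      · exact hx w

/-- Almost everywhere `d` avoids the values guessed by the names with index at most `g`. -/
theorem avoid (h : IsSub A) {d g : ℕ → ℕ → B} (hd : Dm A d)
    (hd2 : ∀ i j k, j ≠ k → d i j ⊓ d i k = ⊥) (hg : IsName A g) (cs : ℕ → ℕ × ℕ → B)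
    (c1 : ∀ e x, cs e x ∈ A) (c2 : ∀ e x y, x ≠ y → cs e x ⊓ cs e y = ⊥) :
    ⨆ L, ⨅ i, ⨅ _ : L ≤ i, ⨅ v, ⨅ m, ⨅ e, ⨅ _ : e ≤ m, (cs e (i, v) ⊓ d i v ⊓ g i m)ᶜ = ⊤ := by
  have := dom' h hd (fun i j => ⨅ v, ⨅ _ : j < v, ⨅ m, ⨅ e, ⨅ _ : e ≤ m, (cs e (i, v) ⊓ g i m)ᶜ)
    (fun i j => h.iInf fun v => h.iInf fun _ => h.iInf fun m => h.iInf fun e => h.iInf fun _ =>
      h.2 _ (h.inf (c1 _ _) (hg.1 _ _))) fun i => top_of fun b hb => by
      obtain ⟨m, hm⟩ := ex_top hb (hg.2.1 i)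
      obtain ⟨j, b', h1, h2, h3⟩ := bnd (fun e v => cs e (i, v))
        (fun e v w hvw => c2 e _ _ fun hh => hvw (Prod.ext_iff.1 hh).2) (m + 1) _ hm
      refine ⟨j, ne_mono h2 (le_inf (h1.trans inf_le_left) ?_)⟩
      refine le_iInf₂ fun v hv => le_iInf fun m' => le_iInf₂ fun e he => ?_
      rw [le_compl_iff_disjoint_right]
      by_cases hmm : m = m'
      · exact (disjoint_iff.2 (h3 e (by omega) v hv)).mono_right inf_le_left
      · exact (disjoint_iff.2 (hg.2.2 i m m' hmm)).mono (h1.trans inf_le_right) inf_le_right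
  refine top_unique (this.ge.trans ?_)
  refine iSup_mono fun L => iInf_mono fun i => iInf_mono fun _ => iSup_le fun j => iSup₂_le
    fun k hk => le_iInf fun v => le_iInf fun m => le_iInf₂ fun e he => ?_
  rw [le_compl_iff_disjoint_right]
  by_cases hkv : k = v
  · subst hkv
    refine (disjoint_compl_left (a := cs e (i, k) ⊓ g i m)).mono (inf_le_left.trans ?_)
      (inf_le_inf_right _ inf_le_left)
    exact (iInf₂_le k hk).trans ((iInf_le _ m).trans (iInf₂_le e he))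
  · exact (disjoint_iff.2 (hd2 i k v hkv)).mono inf_le_right (inf_le_left.trans inf_le_right)

/-- One coordinate of one step of the recursion. -/
theorem step (h : IsSub A) (h' : IsSub A') (hA : A ⊆ A') {d g : ℕ → ℕ → B} (hd : Dm A d)
    (hd' : IsName A' d) (hg : IsName A g) {P : B} (hP : P ∈ A') (N : ℕ) (cs : ℕ → ℕ × ℕ → B)
    (c1 : ∀ e x, cs e x ∈ A) (c2 : ∀ e x y, x ≠ y → cs e x ⊓ cs e y = ⊥) :
    ∃ c z : ℕ × ℕ → B, (∀ x, c x ∈ A) ∧ (∀ x y, x ≠ y → c x ⊓ c y = ⊥) ∧ (∀ x, z x ∈ A') ∧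
      (∀ x, z x ≤ c x ⊓ d x.1 x.2 ⊓ P) ∧ (∀ x, x.1 < N → z x = ⊥) ∧
      proj A (⨆ x, z x) = proj A P ∧
      ∀ x i v m e, x.1 ≤ i → e ≤ m → Disjoint (z x) (cs e (i, v) ⊓ d i v ⊓ g i m) := by
  let T : ℕ → B := fun L =>
    ⨅ i, ⨅ _ : L ≤ i, ⨅ v, ⨅ m, ⨅ e, ⨅ _ : e ≤ m, (cs e (i, v) ⊓ d i v ⊓ g i m)ᶜ
  have hT : ⨆ L, T L = ⊤ := avoid h hd hd'.2.2 hg cs c1 c2
  have hT' : ∀ L, T L ∈ A' := fun L => h'.iInf fun i => h'.iInf fun _ => h'.iInf fun v =>
    h'.iInf fun m => h'.iInf fun e => h'.iInf fun _ =>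
      h'.2 _ (h'.inf (h'.inf (hA (c1 _ _)) (hd'.1 _ _)) (hA (hg.1 _ _)))
  let u : ℕ × ℕ → B := fun x => if x.1 < N then ⊥ else d x.1 x.2 ⊓ P ⊓ T x.1
  have hu : ∀ x, u x ≤ d x.1 x.2 ⊓ P ⊓ T x.1 := fun x => by
    simp only [u]
    split_ifs
    exacts [bot_le, le_rfl]
  obtain ⟨c, d1, d2, d3, d4⟩ := disj h (fun x => proj A (u x)) fun x => proj_mem h _
  refine ⟨c, fun x => c x ⊓ u x, d1, d4, fun x => h'.inf (hA (d1 x)) ?_, fun x => ?_,
    fun x hx => by simp only [u, hx, ↓ reduceIte, bot_le, inf_of_le_right], le_antisymm (proj_mono h (iSup_le fun x => ?_)) ?_,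
    fun x i v m e hi he => ?_⟩
  · simp only [u]
    split_ifs
    exacts [h'.bot, h'.inf (h'.inf (hd'.1 _ _) hP) (hT' _)]
  · rw [inf_assoc]
    exact inf_le_inf_left _ ((hu x).trans inf_le_left)
  · exact inf_le_right.trans ((hu x).trans (inf_le_left.trans inf_le_right))
  · have e1 : P ≤ ⨆ x, u x := by
      by_contra hn
      have h0 : P ⊓ (⨆ x, u x)ᶜ ≠ ⊥ := fun h0 =>
        hn (disjoint_compl_right_iff.1 (disjoint_iff.2 h0))
      obtain ⟨L, hL⟩ := ex_top h0 hT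
      obtain ⟨v, hv⟩ := ex_top hL (hd'.2.1 (max L N))
      refine hv (le_bot_iff.1 ((disjoint_compl_right (a := ⨆ x, u x)).le_bot.trans' (le_inf
        (le_iSup_of_le (max L N, v) ?_) (inf_le_left.trans (inf_le_left.trans inf_le_right)))))
      simp only [u, if_neg (not_lt.2 (le_max_right L N))]
      refine le_inf (le_inf inf_le_right (inf_le_left.trans (inf_le_left.trans inf_le_left)))
        (inf_le_left.trans (inf_le_right.trans ?_))
      exact le_iInf₂ fun i hi => iInf₂_le i ((le_max_left _ _).trans hi)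
    refine proj_le (proj_mem h _) (e1.trans ((iSup_mono fun x => le_proj (A := A) _).trans ?_))
    rw [← d3]
    refine iSup_le fun x => ?_
    rw [← inf_eq_left.2 (d2 x), ← proj_inf h (d1 x)]
    exact proj_mono h (le_iSup (fun x => c x ⊓ u x) x)
  · refine disjoint_compl_left.mono_left (inf_le_right.trans ((hu x).trans (inf_le_right.trans ?_)))
    exact (iInf₂_le i hi).trans ((iInf_le _ v).trans ((iInf_le _ m).trans (iInf₂_le e he)))

theorem name_const (h : IsSub A) (H : ℕ → ℕ) :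
    IsName A fun i j => if j = H i then (⊤ : B) else ⊥ := by
  refine ⟨fun i j => ?_, fun i => top_unique (le_iSup_of_le (H i) (by simp)), fun i j k hjk => ?_⟩
  · dsimp only
    split_ifs
    exacts [h.top, h.bot]
  · by_cases h1 : j = H i
    · simp only [show k ≠ H i from fun h2 => hjk (h1.trans h2.symm), ↓ reduceIte, bot_le, inf_of_le_right]
    · simp only [h1, ↓ reduceIte, bot_le, inf_of_le_left]

theorem proj_ne (h : IsSub A) {b : B} (hb : proj A b ≠ ⊥) : b ≠ ⊥ := fun e =>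
  hb (le_bot_iff.1 (proj_le h.bot e.le))

/-- No nonzero element lies below an infinite increasing sequence of the new conditions. -/
theorem no_bound (h : IsSub A) {d g : ℕ → ℕ → B} (hd : Dm A d)
    (hd2 : ∀ i j k, j ≠ k → d i j ⊓ d i k = ⊥) (c z : ℕ → ℕ × ℕ → B) (e : ℕ → ℕ) (n : ℕ)
    (c1 : ∀ k x, c k x ∈ A) (c2 : ∀ k x y, x ≠ y → c k x ⊓ c k y = ⊥)
    (z1 : ∀ k x, z k x ≤ c k x ⊓ d x.1 x.2) (z2 : ∀ x, x.1 < n → z 0 x = ⊥)
    (z3 : ∀ k x i v m, x.1 ≤ i → e k ≤ m → Disjoint (z (k + 1) x) (c k (i, v) ⊓ d i v ⊓ g i m))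
    {b : B} (b1 : ∀ k, b ≤ ⨆ x, z k x)
    (b2 : ∀ i, n ≤ i → b ≤ ⨆ m, ⨆ _ : ∀ k ≤ i, e k ≤ m, g i m) : b = ⊥ := by
  by_contra hb
  have len : ∀ k x, b ⊓ z k x ≠ ⊥ → n + k ≤ x.1 := by
    intro k
    induction k with
    | zero => exact fun x hx => not_lt.1 fun hn => hx (by simp only [z2 x hn, bot_le, inf_of_le_right])
    | succ k ih =>
      intro x hx
      by_contra hn
      obtain ⟨x', hx'⟩ := ex_inf hx (inf_le_left.trans (b1 k))
      have := ih x' (ne_mono hx' (inf_le_inf_right _ inf_le_left))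
      obtain ⟨m, hm⟩ := ex_inf hx' (inf_le_left.trans (inf_le_left.trans (b2 x'.1 (by omega))))
      by_cases hp : ∀ k ≤ x'.1, e k ≤ m
      · rw [iSup_pos hp] at hm
        exact hm (le_bot_iff.1 ((z3 k x x'.1 x'.2 m (by omega) (hp k (by omega))).le_bot.trans'
          (le_inf (inf_le_left.trans (inf_le_left.trans inf_le_right))
            (inf_le_inf_right _ (inf_le_right.trans (z1 k x'))))))
      · simp only [iSup_neg hp, le_inf_iff, bot_le, and_self, inf_of_le_right, ne_eq, not_true_eq_false] at hm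
  obtain ⟨L, hL⟩ := ex_top hb (avoid h hd hd2 (name_const h id) c c1 c2)
  obtain ⟨x, hx⟩ := ex_inf hL (inf_le_left.trans (b1 L))
  have := len L x (ne_mono hx (inf_le_inf_right _ inf_le_left))
  refine hx (le_bot_iff.1 ((disjoint_compl_left (a := c L x ⊓ d x.1 x.2)).le_bot.trans'
    (inf_le_inf (inf_le_right.trans ?_) (z1 L x))))
  refine (iInf₂_le x.1 (by omega)).trans ((iInf_le _ x.2).trans ((iInf_le _ x.1).trans
    ((iInf₂_le L (by omega)).trans ?_)))
  simp only [Prod.mk.eta, id_eq, ↓ reduceIte, le_top, inf_of_le_left, compl_inf, Std.le_refl]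

theorem main' (A : ℕ → Set B) (hA : ∀ n, IsSub (A n)) (mono : ∀ n, A n ⊆ A (n + 1))
    (dom : ∀ n, ∃ d, IsName (A (n + 1)) d ∧ ∀ f, IsName (A n) f → Dom f d)
    (O : Type) [LinearOrder O] [WellFoundedLT O] (hI : ∀ β : O, (Iio β).Countable)
    (p : O → ℕ → B) (hp : ∀ β, Thread A (p β)) :
    ∃ q : O → ℕ → B, (∀ β, Thread A (q β) ∧ ∀ n, q β n ≤ p β n) ∧
      ∀ J : Set O, J.Infinite → ¬ ∃ r, Thread A r ∧ ∀ β ∈ J, ∀ n, r n ≤ q β n := by
  classical
  choose d d1 d2 using dom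
  choose e he using fun β => countable_iff_exists_injOn.1 (hI β)
  have m1 : ∀ n, A 1 ⊆ A (n + 1) := fun n => by
    induction n with
    | zero => exact subset_rfl
    | succ n ih => exact ih.trans (mono _)
  have hg : ∀ n, IsName (A (n + 1)) (d 0) := fun n => ⟨fun i j => m1 n ((d1 0).1 i j), (d1 0).2⟩
  let C := {c : ℕ → ℕ × ℕ → B // (∀ n x, c n x ∈ A (n + 1)) ∧
    ∀ n x y, x ≠ y → c n x ⊓ c n y = ⊥}
  have st : ∀ (β : O) (G : ∀ α, α < β → C × (ℕ → ℕ × ℕ → B)), ∃ D : C × (ℕ → ℕ × ℕ → B),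
      (∀ n, (∀ x, D.2 n x ∈ A (n + 2)) ∧
        (∀ x, D.2 n x ≤ D.1.1 n x ⊓ d (n + 1) x.1 x.2 ⊓ p β (n + 2)) ∧
        (∀ x, x.1 < n → D.2 n x = ⊥) ∧ proj (A (n + 1)) (⨆ x, D.2 n x) = p β (n + 1)) ∧
      ∀ n α (h : α < β) x i v m, x.1 ≤ i → e β α ≤ m →
        Disjoint (D.2 n x) ((G α h).1.1 n (i, v) ⊓ d (n + 1) i v ⊓ d 0 i m) := by
    intro β G
    let cs : ℕ → C := fun i => if h : ∃ α, α < β ∧ e β α = i then (G h.choose h.choose_spec.1).1
      else ⟨fun _ _ => ⊥, fun n _ => (hA _).bot, fun _ _ _ _ => by simp⟩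
    choose c z s1 s2 s3 s4 s5 s6 s7 using fun n => step (hA (n + 1)) (hA (n + 2)) (mono _)
      (d2 (n + 1)) (d1 (n + 1)) (hg n) (hp β (n + 2)).1 n (fun i => (cs i).1 n)
      (fun i => (cs i).2.1 n) fun i => (cs i).2.2 n
    refine ⟨(⟨c, s1, s2⟩, z), fun n => ⟨s3 n, s4 n, s5 n, (s6 n).trans (hp β (n + 1)).2.2⟩,
      fun n α h x i v m h1 h2 => ?_⟩
    have hx : ∃ α', α' < β ∧ e β α' = e β α := ⟨α, h, rfl⟩
    have e1 : hx.choose = α := he β hx.choose_spec.1 h hx.choose_spec.2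
    have e2 : cs (e β α) = (G α h).1 := by
      simp only [cs, dif_pos hx]
      congr! 2
    rw [← e2]
    exact s7 n x i v m _ h1 h2
  choose G G1 G2 using st
  let D : O → C × (ℕ → ℕ × ℕ → B) := (wellFounded_lt (α := O)).fix G
  have hD : ∀ β, D β = G β fun α _ => D α := fun β => WellFounded.fix_eq _ _ _
  have D1 := fun β => G1 β fun α _ => D α
  have D2 := fun β => G2 β fun α _ => D α
  simp only [← hD] at D1 D2
  let s : O → ℕ → B := fun β n => n.rec (p β 1) fun n a => a ⊓ ⨆ x, (D β).2 n x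
  have s1 : ∀ β n, s β n ∈ A (n + 1) ∧ s β n ≤ p β (n + 1) := fun β n => by
    induction n with
    | zero => exact ⟨(hp β 1).1, le_rfl⟩
    | succ n ih => exact ⟨(hA _).inf (mono _ ih.1) ((hA _).iSup (D1 β n).1),
        inf_le_right.trans (iSup_le fun x => ((D1 β n).2.1 x).trans inf_le_right)⟩
  have s2 : ∀ β n, proj (A (n + 1)) (s β (n + 1)) = s β n := fun β n =>
    (proj_inf (hA _) (s1 β n).1 _).trans (by rw [(D1 β n).2.2.2, inf_eq_left.2 (s1 β n).2])
  have s3 : ∀ β n, s β n ≠ ⊥ := fun β n => by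
    induction n with
    | zero => exact (hp β 1).2.1
    | succ n ih => exact proj_ne (hA (n + 1)) ((s2 β n).symm ▸ ih)
  refine ⟨fun β n => n.casesOn (p β 0) (s β), fun β => ⟨fun n => ?_, fun n => ?_⟩, ?_⟩
  · cases n with
    | zero => exact hp β 0
    | succ n => exact ⟨(s1 β n).1, s3 β n, s2 β n⟩
  · cases n with
    | zero => exact le_rfl
    | succ n => exact (s1 β n).2
  rintro J hJ ⟨r, hr, hrJ⟩
  obtain ⟨g, hg'⟩ := (Set.IsWF.isPWO (Set.IsWF.of_wellFoundedLT J)).exists_monotone_subseq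
    (f := fun i => (hJ.natEmbedding J i : O)) fun i => (hJ.natEmbedding J i).2
  have hs : StrictMono fun i => (hJ.natEmbedding J (g i) : O) := hg'.strictMono_of_injective
    (Subtype.val_injective.comp ((hJ.natEmbedding J).injective.comp g.injective))
  set a : ℕ → O := fun i => (hJ.natEmbedding J (g i) : O)
  have ha : ∀ k, a k ∈ J := fun k => (hJ.natEmbedding J (g k)).2
  let H : ℕ → ℕ := fun i => (Finset.range (i + 1)).sup fun k => e (a (k + 1)) (a k)
  obtain ⟨L, hL⟩ := ex_top (hr 1).2.1 (d2 0 _ (name_const (hA 0) H))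
  set T : B := ⨅ i, ⨅ _ : L ≤ i, ⨆ j, ⨆ k, ⨆ _ : j < k, (if j = H i then ⊤ else ⊥) ⊓ d 0 i k
    with hT
  have hT1 : T ∈ A 1 := (hA 1).iInf fun i => (hA 1).iInf fun _ => (hA 1).iSup fun j =>
    (hA 1).iSup fun k => (hA 1).iSup fun _ =>
      (hA 1).inf ((name_const (hA 1) H).1 i j) ((d1 0).1 _ _)
  have hb : ∀ n, T ⊓ r (n + 1) ≠ ⊥ := fun n => by
    induction n with
    | zero => rwa [inf_comm]
    | succ n ih =>
      refine proj_ne (hA (n + 1)) ?_
      rwa [proj_inf (hA _) (m1 n hT1), (hr (n + 1)).2.2]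
  refine hb (L + 1) (no_bound (hA (L + 1)) (g := d 0) (d2 (L + 1)) (d1 (L + 1)).2.2
    (fun k => (D (a k)).1.1 L) (fun k => (D (a k)).2 L) (fun k => e (a (k + 1)) (a k)) L
    (fun k => (D (a k)).1.2.1 L) (fun k => (D (a k)).1.2.2 L)
    (fun k x => ((D1 _ L).2.1 x).trans inf_le_left) (D1 _ L).2.2.1
    (fun k => D2 _ L _ (hs k.lt_succ_self))
    (fun k => inf_le_right.trans ((hrJ _ (ha k) (L + 2)).trans inf_le_right)) fun i hi => ?_)
  refine inf_le_left.trans ((iInf₂_le i hi).trans (iSup_le fun j => iSup₂_le fun k hk => ?_))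
  split_ifs with hj
  · refine le_iSup₂_of_le k (fun k' hk' => ?_) inf_le_right
    exact (Finset.le_sup (f := fun k => e (a (k + 1)) (a k))
      (Finset.mem_range.2 (Nat.lt_succ_of_le hk'))).trans (hj.ge.trans hk.le)
  · simp only [bot_le, inf_of_le_left]

open Cardinal in
theorem main (A : ℕ → Set B) (hA : ∀ n, IsSub (A n)) (mono : ∀ n, A n ⊆ A (n + 1))
    (dom : ∀ n, ∃ d, IsName (A (n + 1)) d ∧ ∀ f, IsName (A n) f → Dom f d)
    (p : (Ordinal.omega.{0} 1).ToType → ℕ → B) (hp : ∀ β, Thread A (p β)) :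
    ∃ q : (Ordinal.omega.{0} 1).ToType → ℕ → B, (∀ β, Thread A (q β) ∧ ∀ n, q β n ≤ p β n) ∧
      ∀ J : Set (Ordinal.omega.{0} 1).ToType, J.Infinite →
        ¬ ∃ r, Thread A r ∧ ∀ β ∈ J, ∀ n, r n ≤ q β n := by
  have hO : #(Ordinal.omega.{0} 1).ToType = aleph 1 := by simp only [mk_toType, Ordinal.card_omega]
  refine main' A hA mono dom _ (fun β => ?_) p hp
  rw [← le_aleph0_iff_set_countable, ← Order.lt_succ_iff, succ_aleph0, ← hO]
  exact mk_Iio_lt β (by simp only [mk_toType, Ordinal.card_omega, ord_aleph, Ordinal.type_toType])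

end Pool.Agent.MP_9590fd_lc.H86B
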